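import Pool.Agent.LE.StmtsQZ
import Pool.Agent.Helper77_LQF.JAL
import Pool.Agent.Helper70_LQF.NNU
import Pool.Agent.Helper76_LQD.RAL

/-!
# Squad LQZ, row UPR: the probability
-/

set_option autoImplicit false

open MeasureTheory ProbabilityTheory Function Filter

open scoped ENNReal BigOperators Topology NNReal ComplexOrder Matrix

noncomputable section

namespace Pool.Agent.LE.QZ.H3

open Pool.Agent.Anderson hiding box mem_box card_box
open Pool.Agent.Loc Pool.Agent.Mob Pool.Agent.Helper54.Bal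
  Pool.Agent.Helper96.EXP Pool.Agent.BED
open Pool.Agent.LE.MN Pool.Agent.LE.CL Pool.Agent.LE.IR Pool.Agent.LE.QD Pool.Agent.LE.QF

/-! ### traces -/

theorem n2_nonneg {X : Type} [Fintype X] (u : X → ℂ) : 0 ≤ n2 u := by
  unfold n2
  positivity

theorem n2_smul {X : Type} [Fintype X] (c : ℂ) (u : X → ℂ) : n2 (c • u) = ‖c‖ ^ 2 * n2 u := by
  unfold n2
  rw [Finset.mul_sum]
  refine Finset.sum_congr rfl fun a _ => ?_
  rw [Pi.smul_apply, smul_eq_mul, norm_mul, mul_pow]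

theorem n2_pos {X : Type} [Fintype X] {u : X → ℂ} (h : u ≠ 0) : 0 < n2 u := by
  obtain ⟨i, hi⟩ := Function.ne_iff.mp h
  unfold n2
  apply Finset.sum_pos' (fun k _ => by positivity)
  exact ⟨i, Finset.mem_univ i, by
    have : 0 < ‖u i‖ := norm_pos_iff.mpr hi
    positivity⟩

theorem n2_dot {X : Type} [Fintype X] (u : X → ℂ) : ((n2 u : ℝ) : ℂ) = star u ⬝ᵥ u := by
  unfold n2
  simp only [dotProduct]
  push_cast
  refine Finset.sum_congr rfl fun a _ => ?_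
  rw [Pi.star_apply, Complex.star_def, Complex.conj_mul']

/-- the trace of a power of `Y Y^*` -/
theorem tr_le {X : Type} [Fintype X] [DecidableEq X] (Y : Matrix X X ℂ) (e : ℝ)
    (hY : ∀ u, n2 (Y *ᵥ u) ≤ e ^ 2 * n2 u) (j : ℕ) :
    (Matrix.trace ((Y * Yᴴ) ^ j)).re ≤ Fintype.card X * (e ^ 2) ^ j := by
  have hps : (Y * Yᴴ).PosSemidef := Matrix.posSemidef_self_mul_conjTranspose Y
  obtain ⟨U, l, hU1, hU2, hP, hl⟩ := exists_diag hps.isHermitian
  have hl0 : ∀ i, 0 ≤ l i := fun i => by rw [hl]; exact hps.eigenvalues_nonneg i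
  have htr : (Matrix.trace ((Y * Yᴴ) ^ j)).re = ∑ i, l i ^ j := by
    rw [hP, diag_pow hU2 hU1, Matrix.trace_mul_comm, ← Matrix.mul_assoc, hU2, Matrix.one_mul,
      Matrix.trace_diagonal, Complex.re_sum]
    simp only [Complex.ofReal_re]
  have hle : ∀ i, l i ≤ e ^ 2 := by
    intro i
    by_contra hcon
    rw [not_le] at hcon
    have hlpos : 0 < l i := lt_of_le_of_lt (sq_nonneg e) hcon
    -- the eigenvector
    set v : X → ℂ := U *ᵥ Pi.single i 1 with hv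
    have hev : (Y * Yᴴ) *ᵥ v = ((l i : ℝ) : ℂ) • v := by
      rw [hP, hv, Matrix.mulVec_mulVec, Matrix.mul_assoc, Matrix.mul_assoc, hU2, Matrix.mul_one,
        ← Matrix.mulVec_mulVec]
      have h1 : Matrix.diagonal (fun i => ((l i : ℝ) : ℂ)) *ᵥ (Pi.single i (1 : ℂ)) =
          ((l i : ℝ) : ℂ) • (Pi.single i (1 : ℂ) : X → ℂ) := by
        ext k
        rw [Matrix.mulVec_diagonal, Pi.smul_apply, smul_eq_mul]
        by_cases hk : k = i
        · subst hk; rfl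
        · rw [Pi.single_eq_of_ne hk, mul_zero, mul_zero]
      rw [h1, Matrix.mulVec_smul]
    have hv0 : v ≠ 0 := by
      intro h0
      have h1 : Uᴴ *ᵥ v = Pi.single i 1 := by
        rw [hv, Matrix.mulVec_mulVec, hU2, Matrix.one_mulVec]
      rw [h0, Matrix.mulVec_zero] at h1
      have h2 := congrFun h1 i
      rw [Pi.single_eq_same] at h2
      exact zero_ne_one h2
    have hvp := n2_pos hv0
    set u : X → ℂ := Yᴴ *ᵥ v with hu
    have hYu : Y *ᵥ u = ((l i : ℝ) : ℂ) • v := by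
      rw [hu, Matrix.mulVec_mulVec, hev]
    have h1 : n2 u = l i * n2 v := by
      have h2 : ((n2 u : ℝ) : ℂ) = ((l i * n2 v : ℝ) : ℂ) := by
        rw [n2_dot, hu, Matrix.star_mulVec, Matrix.conjTranspose_conjTranspose,
          ← Matrix.dotProduct_mulVec, Matrix.mulVec_mulVec, hev, dotProduct_smul, ← n2_dot,
          smul_eq_mul]
        push_cast
        ring
      exact_mod_cast h2
    have h3 := hY u
    rw [hYu, n2_smul, h1, Complex.norm_real, Real.norm_eq_abs, sq_abs] at h3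
    have h4 : l i * (l i * n2 v) ≤ e ^ 2 * (l i * n2 v) := by
      calc l i * (l i * n2 v) = l i ^ 2 * n2 v := by ring
        _ ≤ _ := h3
    have h5 : 0 < l i * n2 v := mul_pos hlpos hvp
    exact absurd (le_of_mul_le_mul_right h4 h5) (not_le.2 hcon)
  rw [htr]
  calc ∑ i, l i ^ j ≤ ∑ _i : X, (e ^ 2) ^ j :=
        Finset.sum_le_sum fun i _ => pow_le_pow_left₀ (hl0 i) (hle i) j
    _ = _ := by rw [Finset.sum_const, Finset.card_univ, nsmul_eq_mul]

theorem card_tor (d M : ℕ) [NeZero M] : (Fintype.card (Tor d M) : ℝ) = (M : ℝ) ^ d := by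
  have h1 : Fintype.card (Tor d M) = M ^ d := by
    change Fintype.card (Fin d → ZMod M) = M ^ d
    rw [Fintype.card_fun, Fintype.card_fin, ZMod.card]
  rw [h1]
  push_cast
  rfl

/-! ### simple facts -/

section facts

variable {d M : ℕ} [NeZero M] {D : Dat d M} {c₁ C₁ c₀ : ℝ}

theorem adm_mono {c₀' : ℝ} (h : Adm D c₁ C₁ c₀) (hc : c₀ ≤ c₀') : Adm D c₁ C₁ c₀' :=
  { hT := h.hT
    hm := h.hm
    hfix := h.hfix
    hδ := ⟨h.hδ.1, h.hδ.2.trans hc⟩
    hk := ⟨h.hk.1, h.hk.2.1.trans hc, h.hk.2.2⟩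
    he := h.he
    hj := h.hj
    h0 := h.h0
    hN := h.hN
    hY := h.hY
    hL := h.hL
    hS := h.hS
    hϖ := h.hϖ
    hW := h.hW
    h6 := h.h6 }

theorem kp_ge (hc : 0 < c₁) (hA : Adm D c₁ C₁ c₀) {t : ℝ} (ht : t ≤ D.T) : D.η ≤ D.kp t := by
  have him : 0 < D.m.im := lt_of_lt_of_le hc hA.hm.1
  unfold Dat.kp
  nlinarith [mul_nonneg (sub_nonneg.2 ht) him.le]

theorem w_ge (hc : 0 < c₁) (hA : Adm D c₁ C₁ c₀) : D.η ≤ D.w := kp_ge hc hA hA.hT.1.le

theorem ch_nonneg (hc : 0 < c₁) (hA : Adm D c₁ C₁ c₀) : 0 ≤ D.ch := by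
  have hw : 0 < D.w := lt_of_lt_of_le hA.hT.2.1 (w_ge hc hA)
  have hL₀ : 1 ≤ D.L₀ := hA.hj.2.2.1
  have hN : 1 ≤ D.N := hA.hj.2.2.2.1
  have hπ : 0 ≤ D.π₀ := hA.hj.2.2.2.2
  have hδ : 0 < D.δ := hA.hδ.1
  unfold Dat.ch
  positivity

theorem aN_nonneg (hc : 0 < c₁) (hA : Adm D c₁ C₁ c₀) : 0 ≤ D.aN := by
  have hw : 0 < D.w := lt_of_lt_of_le hA.hT.2.1 (w_ge hc hA)
  have hL₀ : 1 ≤ D.L₀ := hA.hj.2.2.1
  have hN : 1 ≤ D.N := hA.hj.2.2.2.1
  have hπ : 0 ≤ D.π₀ := hA.hj.2.2.2.2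
  have hδ : 0 < D.δ := hA.hδ.1
  have hch := ch_nonneg hc hA
  have he : 0 ≤ D.e₀ - 1 := by linarith [hA.he.1, hA.he.2.1]
  have hh : 0 ≤ D.h := by
    unfold Dat.h
    positivity
  unfold Dat.aN
  positivity

theorem bN_nonneg (hA : Adm D c₁ C₁ c₀) : 0 ≤ D.bN := by
  have he : 0 < D.e₁ := by linarith [hA.he.1]
  unfold Dat.bN
  positivity

theorem one_le_Md : (1 : ℝ) ≤ (M : ℝ) ^ d := by
  have h1 : (1 : ℝ) ≤ (M : ℝ) := by
    exact_mod_cast Nat.one_le_iff_ne_zero.2 (NeZero.ne M)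
  exact one_le_pow₀ h1

/-! ### the initial value -/

theorem G_zero : D.G (0 : ℝ × (Tor d M → ℝ)) = D.G0 := rfl

theorem ph_zero (hA : Adm D c₁ C₁ c₀) : D.ph (0 : ℝ × (Tor d M → ℝ)) = 0 := by
  have h1 : D.mu (0 : ℝ × (Tor d M → ℝ)) = 0 := by
    funext a
    unfold Dat.mu
    rw [G_zero, hA.hfix a, sub_self]
    rfl
  unfold Dat.ph
  rw [h1, Matrix.mulVec_zero]

theorem Xh_zero (hA : Adm D c₁ C₁ c₀) : D.Xh (0 : ℝ × (Tor d M → ℝ)) = 0 := by
  unfold Dat.Xh GD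
  rw [ph_zero hA, G_zero]
  have h1 : Matrix.diagonal (0 : Tor d M → ℂ) = 0 := Matrix.diagonal_zero
  rw [h1, Matrix.mul_zero, Matrix.zero_mul, smul_zero, add_zero, sub_self]

theorem U1_zero (hA : Adm D c₁ C₁ c₀) : D.U1 (0 : ℝ × (Tor d M → ℝ)) = 0 := by
  have hj : D.j ≠ 0 := by
    have := hA.hj.1
    omega
  unfold Dat.U1
  refine Finset.sum_eq_zero fun a _ => ?_
  rw [ph_zero hA, Pi.zero_apply, norm_zero, zero_pow two_ne_zero, zero_div, zero_pow hj]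

theorem U2_zero (hA : Adm D c₁ C₁ c₀) : D.U2 (0 : ℝ × (Tor d M → ℝ)) = 0 := by
  have hj : D.j ≠ 0 := by
    have := hA.hj.1
    omega
  unfold Dat.U2
  refine Finset.sum_eq_zero fun a _ => Finset.sum_eq_zero fun b _ => ?_
  rw [Xh_zero hA, Matrix.zero_apply, norm_zero, zero_pow two_ne_zero, zero_div, zero_pow hj]

theorem U3_zero (hA : Adm D c₁ C₁ c₀) :
    D.U3 (0 : ℝ × (Tor d M → ℝ)) ≤ (M : ℝ) ^ d * (97 / 100) ^ D.j := by
  unfold Dat.U3
  rw [div_le_iff₀ (by positivity)]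
  have hsq : Real.sqrt (118 / 125) ^ 2 = 118 / 125 := Real.sq_sqrt (by norm_num)
  have hY : ∀ u, n2 (D.Xi 0 *ᵥ u) ≤ Real.sqrt (118 / 125) ^ 2 * n2 u := by
    intro u
    rw [hsq]
    exact hA.hY u
  refine (tr_le (D.Xi 0) (Real.sqrt (118 / 125)) hY D.j).trans ?_
  rw [card_tor, hsq, mul_assoc, pow_mul, ← mul_pow]
  refine mul_le_mul_of_nonneg_left ?_ (by positivity)
  exact pow_le_pow_left₀ (by norm_num) (by norm_num) _

theorem U4_zero (hc : 0 < c₁) (hA : Adm D c₁ C₁ c₀) :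
    D.U4 (0 : ℝ × (Tor d M → ℝ)) ≤ (M : ℝ) ^ d * (1 / 4) ^ D.j := by
  have hw : 0 < D.kp 0 := lt_of_lt_of_le hA.hT.2.1 (w_ge hc hA)
  have hL₀ : 1 ≤ D.L₀ := hA.hj.2.2.1
  have hN : 1 ≤ D.N := hA.hj.2.2.2.1
  have hπ : 0 ≤ D.π₀ := hA.hj.2.2.2.2
  have hδ : 0 < D.δ := hA.hδ.1
  have hLs : 0 < D.Ls 0 := by
    unfold Dat.Ls
    positivity
  unfold Dat.U4
  calc ∑ a, (D.La 0 a / D.Ls (0 : ℝ × (Tor d M → ℝ)).1) ^ D.j
      ≤ ∑ _a : Tor d M, (1 / 4 : ℝ) ^ D.j := by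
        refine Finset.sum_le_sum fun a _ => pow_le_pow_left₀ ?_ ?_ _
        · refine div_nonneg ?_ hLs.le
          unfold Dat.La
          positivity
        · change D.La 0 a / D.Ls 0 ≤ 1 / 4
          rw [div_le_iff₀ hLs]
          linarith [hA.hL a]
    _ = _ := by rw [Finset.sum_const, Finset.card_univ, nsmul_eq_mul, card_tor]

theorem qf_add {X : Type} [Fintype X] (A B : Matrix X X ℝ) (f : X → ℝ) :
    qf (A + B) f = qf A f + qf B f := by
  unfold QF.qf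
  rw [← Finset.sum_add_distrib]
  refine Finset.sum_congr rfl fun a _ => ?_
  rw [Matrix.add_mulVec, Pi.add_apply]
  ring

theorem qf_one {X : Type} [Fintype X] [DecidableEq X] (f : X → ℝ) :
    qf (1 : Matrix X X ℝ) f = ∑ a, f a ^ 2 := by
  unfold QF.qf
  refine Finset.sum_congr rfl fun a _ => ?_
  rw [Matrix.one_mulVec]
  ring

theorem U5_zero (wab : WabStmt) (hc : 0 < c₁) (hA : Adm D c₁ C₁ c₀) :
    D.U5 (0 : ℝ × (Tor d M → ℝ)) ≤ (M : ℝ) ^ d * (1 / D.e₁) ^ D.p := by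
  have him : 0 < D.m.im := lt_of_lt_of_le hc hA.hm.1
  have hw : 0 < D.kp 0 := lt_of_lt_of_le hA.hT.2.1 (w_ge hc hA)
  have hta : 0 ≤ D.ta 0 := by
    unfold Dat.ta
    positivity
  have hsG : ∀ a b, D.G 0 a b = D.G 0 b a := fun a b => QD.H76.rs_symm _ _ a b
  have hX1 : ∀ a b, D.X 0 a b = D.X 0 b a := by
    intro a b
    unfold Dat.X
    rw [Matrix.smul_apply, Matrix.smul_apply, QF.H70.Dl_symm _ (QF.H70.KK_symm _ hsG)]
  have hX2 : ∀ f, 0 ≤ qf (D.X 0) f := by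
    intro f
    unfold Dat.X
    rw [QF.H70.qf_smul]
    exact mul_nonneg hta (QF.H70.qf_Dl_nonneg _ (QF.H70.KK_symm _ hsG) (QF.H70.KK_nonneg _) f)
  have h := (wab (Tor d M) (D.X 0) D.S D.e₀ D.e₁ (D.ta 0) D.ϖ D.p hX1 hX2 hA.hS.1 hA.hS.2.1
    (by linarith [hA.he.1, hA.he.2.1]) (by linarith [hA.he.1]) hta hA.hϖ.1
    (by linarith [hA.hj.2.1])).2.2.2.2
  rw [card_tor] at h
  refine h fun f => (hA.hW f).trans ?_
  rw [qf_add (D.X 0 + P0 (Tor d M)), QF.H70.qf_smul, qf_one]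
  have : 0 ≤ D.ϖ * ∑ a, f a ^ 2 := mul_nonneg hA.hϖ.1.le (Finset.sum_nonneg fun a _ => sq_nonneg _)
  linarith

theorem U_zero (wab : WabStmt) (hc : 0 < c₁) (hA : Adm D c₁ C₁ c₀) :
    D.U ((0, 0) : ℝ × (Tor d M → ℝ)) ≤ D.bN + D.zt0 := by
  change D.U (0 : ℝ × (Tor d M → ℝ)) ≤ D.bN + D.zt0
  have he : 0 < D.e₁ := by linarith [hA.he.1]
  have h1 := one_le_Md (d := d) (M := M)
  have h2 : (M : ℝ) ^ d ≤ ((M : ℝ) ^ d) ^ 2 := by nlinarith
  have h3 : 0 ≤ (97 / 100 : ℝ) ^ D.j := by positivity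
  have h3' : (1 / 4 : ℝ) ^ D.j ≤ (97 / 100) ^ D.j :=
    pow_le_pow_left₀ (by norm_num) (by norm_num) _
  have h4 : 0 ≤ (1 / D.e₁) ^ D.p := by positivity
  have h5 := U3_zero hA
  have h6 := (U4_zero hc hA).trans (mul_le_mul_of_nonneg_left h3' (by positivity))
  have h7 := U5_zero wab hc hA
  have h8 := hA.h6.2
  have g1 := mul_le_mul_of_nonneg_right h2 h3
  have g2 := mul_le_mul_of_nonneg_right h2 h4
  have g3 : 0 ≤ ((M : ℝ) ^ d) ^ 2 * (1 / D.e₁) ^ D.p := by positivity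
  unfold Dat.U
  rw [U1_zero hA, U2_zero hA]
  unfold Dat.bN
  linarith

end facts

/-! ### the generator -/

theorem LL_add {ι : Type} [Fintype ι] [DecidableEq ι] {F H : ℝ × (ι → ℝ) → ℝ}
    {q : ℝ × (ι → ℝ)} (hF : ContDiffAt ℝ 2 F q) (hH : ContDiffAt ℝ 2 H q) :
    LL (fun r => F r + H r) q = LL F q + LL H q := by
  have h := (QF.H77.jal ι ℝ q).2.2.1 F H (F q) (H q) (LL F q) (LL H q) (fun c => dC c F q)
    (fun c => dC c H q) ⟨hF, rfl, fun _ => rfl, rfl⟩ ⟨hH, rfl, fun _ => rfl, rfl⟩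
  exact h.1.ge

theorem LL_U {d M : ℕ} [NeZero M] (D : Dat d M) {q : ℝ × (Tor d M → ℝ)}
    (h1 : ContDiffAt ℝ 2 D.U1 q) (h2 : ContDiffAt ℝ 2 D.U2 q) (h3 : ContDiffAt ℝ 2 D.U3 q)
    (h4 : ContDiffAt ℝ 2 D.U4 q) (h5 : ContDiffAt ℝ 2 D.U5 q) (h6 : ContDiffAt ℝ 2 D.U6 q) :
    LL D.U q = LL D.U1 q + LL D.U2 q + LL D.U3 q + LL D.U4 q + LL D.U5 q + LL D.U6 q := by
  have e1 := LL_add h1 h2
  have c1 : ContDiffAt ℝ 2 (fun r => D.U1 r + D.U2 r) q := h1.add h2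
  have e2 := LL_add c1 h3
  have c2 : ContDiffAt ℝ 2 (fun r => D.U1 r + D.U2 r + D.U3 r) q := c1.add h3
  have e3 := LL_add c2 h4
  have c3 : ContDiffAt ℝ 2 (fun r => D.U1 r + D.U2 r + D.U3 r + D.U4 r) q := c2.add h4
  have e4 := LL_add c3 h5
  have c4 : ContDiffAt ℝ 2 (fun r => D.U1 r + D.U2 r + D.U3 r + D.U4 r + D.U5 r) q := c3.add h5
  have e6 := LL_add c4 h6
  have e5 : D.U = fun r => D.U1 r + D.U2 r + D.U3 r + D.U4 r + D.U5 r + D.U6 r := rfl
  rw [e5, e6, e4, e3, e2, e1]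

/-! ### the integral -/

theorem int_kp {η T μ : ℝ} (hη : 0 < η) (hT : 0 < T) (hμ : 0 < μ) :
    ∫ t in (0 : ℝ)..T, 1 / max (η + (T - t) * μ) η = Real.log ((η + (T - 0) * μ) / η) / μ := by
  have h0 : ∀ t ∈ Set.uIcc (0 : ℝ) T, η ≤ η + (T - t) * μ := by
    intro t ht
    rw [Set.uIcc_of_le hT.le] at ht
    nlinarith [mul_nonneg (sub_nonneg.2 ht.2) hμ.le]
  have h1 : ∫ t in (0 : ℝ)..T, 1 / max (η + (T - t) * μ) η =
      ∫ t in (0 : ℝ)..T, 1 / (η + (T - t) * μ) := by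
    refine intervalIntegral.integral_congr fun t ht => ?_
    rw [max_eq_left (h0 t ht)]
  rw [h1]
  have h2 : ∀ t ∈ Set.uIcc (0 : ℝ) T, HasDerivAt
      (fun t => -(Real.log (η + (T - t) * μ)) / μ) (1 / (η + (T - t) * μ)) t := by
    intro t ht
    have hp : 0 < η + (T - t) * μ := lt_of_lt_of_le hη (h0 t ht)
    have e1 : HasDerivAt (fun t : ℝ => η + (T - t) * μ) (-μ) t := by
      have e2 : HasDerivAt (fun t : ℝ => η + (T - t) * μ) ((0 - 1) * μ) t :=
        (((hasDerivAt_const t T).sub (hasDerivAt_id t)).mul_const μ).const_add η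
      have e3 : (0 - 1) * μ = -μ := by ring
      rw [e3] at e2
      exact e2
    have e4 := ((e1.log hp.ne').neg).div_const μ
    have e5 : -(-μ / (η + (T - t) * μ)) / μ = 1 / (η + (T - t) * μ) := by
      field_simp
    rw [e5] at e4
    exact e4
  rw [intervalIntegral.integral_eq_sub_of_hasDerivAt h2 ?_]
  · have hw : 0 < η + (T - 0) * μ := by nlinarith
    rw [sub_self, zero_mul, add_zero, Real.log_div hw.ne' hη.ne']
    ring
  · refine ContinuousOn.intervalIntegrable ?_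
    refine ContinuousOn.div continuousOn_const (by fun_prop) fun t ht => ?_
    exact (lt_of_lt_of_le hη (h0 t ht)).ne'

/-! ### the result -/

theorem upr (ufl : UflStmt) (usm : UsmStmt) (nnu : NnuStmt) (god : GodStmt) (upa : UpaStmt)
    (upb : UpbStmt) (upc : UpcStmt) (upd : UpdStmt) (upe : UpeStmt) (wab : WabStmt) : UprStmt := by
  intro c₁ C₁ hc₁ hC₁
  obtain ⟨c₂, C₀, hc₂, hc₂', hC₀, hgod⟩ := god c₁ C₁ hc₁ hC₁
  obtain ⟨CA, hCA, hupa⟩ := upa c₁ C₁ C₀ hc₁ hC₁ hC₀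
  obtain ⟨CB, hCB, hupb⟩ := upb c₁ C₁ C₀ hc₁ hC₁ hC₀
  obtain ⟨CC, hCC, hupc⟩ := upc c₁ C₁ C₀ hc₁ hC₁ hC₀
  obtain ⟨c₃, CD, hc₃, hCD, hupd⟩ := upd c₁ C₁ C₀ hc₁ hC₁ hC₀
  obtain ⟨CE, hCE, hupe⟩ := upe c₁ C₁ C₀ hc₁ hC₁ hC₀
  set K : ℝ := CA + CB + CC + CD + CE with hK
  have hK1 : 1 ≤ K := by linarith
  have hKA : CA ≤ K := by linarith
  have hKB : CB ≤ K := by linarith
  have hKC : CC ≤ K := by linarith
  have hKD : CD ≤ K := by linarith
  have hKE : CE ≤ K := by linarith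
  set C : ℝ := 3 + 6 * K / c₁ with hC
  have hKc : 0 ≤ K / c₁ := by positivity
  refine ⟨min c₂ c₃, C, lt_min hc₂ hc₃, (min_le_left _ _).trans hc₂', ?_, ?_⟩
  · have : 0 ≤ 6 * K / c₁ := by positivity
    linarith
  intro d M _ D v hA hv
  have hA2 : Adm D c₁ C₁ c₂ := adm_mono hA (min_le_left _ _)
  have him : 0 < D.m.im := lt_of_lt_of_le hc₁ hA.hm.1
  have hη : 0 < D.η := hA.hT.2.1
  have hT : 0 < D.T := hA.hT.1
  have haN := aN_nonneg hc₁ hA
  have hbN := bN_nonneg hA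
  have hwη := w_ge hc₁ hA
  have hwp : 0 < D.w := lt_of_lt_of_le hη hwη
  have hlog : 0 ≤ Real.log (D.w / D.η) := Real.log_nonneg (by rwa [one_le_div hη])
  have he1 : 0 < D.e₁ := by linarith [hA.he.1]
  have hp0 : (0 : ℝ) ≤ D.p := Nat.cast_nonneg _
  set α : ℝ := K * D.aN with hα
  set β : ℝ := 2 * K * (D.aN + D.p) * D.bN with hβ
  have hα0 : 0 ≤ α := by positivity
  have hβ0 : 0 ≤ β := by positivity
  set κ : ℝ → ℝ := fun t => max (D.η + (D.T - t) * D.m.im) D.η with hκ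
  have hκp : ∀ t, 0 < κ t := fun t => lt_of_lt_of_le hη (le_max_right _ _)
  have hκc : Continuous κ := by
    rw [hκ]
    fun_prop
  have hκe : ∀ t, t ≤ D.T → κ t = D.kp t := by
    intro t ht
    exact max_eq_left (kp_ge hc₁ hA ht)
  have hac : ∀ x : ℝ, Continuous fun t => x * (1 / κ t) := by
    intro x
    exact continuous_const.mul (continuous_const.div hκc fun t => (hκp t).ne')
  have key := ufl (Tor d M) D.T (fun t => α * (1 / κ t)) (fun t => β * (1 / κ t)) D.U hT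
    (hac α) (hac β) (fun t => ⟨mul_nonneg hα0 (by have := hκp t; positivity),
      mul_nonneg hβ0 (by have := hκp t; positivity)⟩) ?_
  · have hv' : D.T.toNNReal = v := by
      rw [← hv, Real.toNNReal_coe]
    rw [hv'] at key
    refine key.trans (ENNReal.ofReal_le_ofReal ?_)
    have hi : ∫ t in (0 : ℝ)..D.T, 1 / κ t = Real.log (D.w / D.η) / D.m.im :=
      int_kp hη hT him
    rw [intervalIntegral.integral_const_mul, intervalIntegral.integral_const_mul, hi]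
    have hL : Real.log (D.w / D.η) / D.m.im ≤ (1 + Real.log (D.w / D.η)) / c₁ := by
      rw [div_le_div_iff₀ him hc₁]
      nlinarith [mul_le_mul_of_nonneg_left hA.hm.1 hlog]
    have hL0 : 0 ≤ Real.log (D.w / D.η) / D.m.im := div_nonneg hlog him.le
    set ℓ : ℝ := 1 + Real.log (D.w / D.η) with hℓ
    have hℓ1 : 1 ≤ ℓ := by linarith
    have hU0 := U_zero wab hc₁ hA
    have hU00 : 0 ≤ D.U ((0, 0) : ℝ × (Tor d M → ℝ)) := by
      have := nnu d M D c₁ C₁ _ (0, 0) hc₁ hA hwp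
      unfold Dat.U
      linarith [this.1, this.2.1, this.2.2.1, this.2.2.2.1, this.2.2.2.2.1, this.2.2.2.2.2]
    refine mul_le_mul (Real.exp_le_exp.2 ?_) ?_ ?_ (Real.exp_pos _).le
    · calc 3 * (α * (Real.log (D.w / D.η) / D.m.im)) ≤ 3 * (α * (ℓ / c₁)) := by
            have := mul_le_mul_of_nonneg_left hL hα0
            linarith
        _ = (3 * K / c₁) * (D.aN * ℓ) := by
            rw [hα]
            ring
        _ ≤ C * (D.aN * ℓ) := by
            refine mul_le_mul_of_nonneg_right ?_ (by positivity)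
            rw [hC]
            have e1 : 3 * K / c₁ = 3 * (K / c₁) := by ring
            have e2 : 6 * K / c₁ = 6 * (K / c₁) := by ring
            rw [e1, e2]
            linarith
        _ = _ := by ring
    · calc 3 * D.U ((0, 0) : ℝ × (Tor d M → ℝ)) + 3 * (β * (Real.log (D.w / D.η) / D.m.im))
          ≤ 3 * (D.bN + D.zt0) + 3 * (β * (ℓ / c₁)) := by
            have := mul_le_mul_of_nonneg_left hL hβ0
            linarith
        _ = 3 * D.bN + (6 * K / c₁) * ((D.aN + D.p) * ℓ * D.bN) + 3 * D.zt0 := by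
            rw [hβ]
            ring
        _ ≤ C * ((1 + D.aN + D.p) * ℓ * D.bN) + 3 * D.zt0 := by
            have e0 : 0 ≤ 6 * K / c₁ := by positivity
            have e1 : D.bN ≤ (1 + D.aN + D.p) * ℓ * D.bN := by
              have : 1 ≤ (1 + D.aN + D.p) * ℓ := by nlinarith
              nlinarith
            have e2 : (D.aN + D.p) * ℓ * D.bN ≤ (1 + D.aN + D.p) * ℓ * D.bN := by
              refine mul_le_mul_of_nonneg_right ?_ hbN
              refine mul_le_mul_of_nonneg_right ?_ (by linarith)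
              linarith
            have e3 := mul_le_mul_of_nonneg_left e2 e0
            rw [hC]
            nlinarith
        _ = _ := by ring
    · have := mul_nonneg hβ0 hL0
      linarith
  · intro q hq0 hqT
    have hkp : D.η ≤ D.kp q.1 := kp_ge hc₁ hA hqT
    have hkp0 : 0 < D.kp q.1 := lt_of_lt_of_le hη hkp
    obtain ⟨n1, n2', n3, n4', n5, n6⟩ := nnu d M D c₁ C₁ _ q hc₁ hA hkp0
    refine ⟨?_, ?_⟩
    · unfold Dat.U
      linarith
    rcases usm d M D c₁ C₁ _ q hc₁ ((min_le_left _ _).trans hc₂') hA hq0 hqT with h | h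
    · exact Or.inl h
    refine Or.inr ⟨h, fun hU => ?_⟩
    have hG := hgod d M D q hA2 hq0 hqT hU
    obtain ⟨s1, s2, a1, a2⟩ := hupa d M D _ _ _ q hA2 hq0 hqT hG
    obtain ⟨s3, a3⟩ := hupb d M D _ _ _ q hc₂' hA2 hq0 hqT hG
    obtain ⟨s4, a4⟩ := hupc d M D _ _ _ q hc₂' hA2 hq0 hqT hG
    obtain ⟨s5, a5⟩ := hupd d M D _ _ _ q (min_le_right _ _) hA hq0 hqT hG
    obtain ⟨s6, a6⟩ := hupe d M D _ _ _ q hA2 hq0 hqT hG
    rw [LL_U D s1 s2 s3 s4 s5 s6]
    rw [hκe q.1 hqT]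
    set k : ℝ := D.kp q.1 with hk
    set P : ℝ := (97 / 100 : ℝ) ^ D.j with hP
    have hP4 : (1 / 4 : ℝ) ^ D.j ≤ P := pow_le_pow_left₀ (by norm_num) (by norm_num) _
    set Q : ℝ := (1 / D.e₁) ^ D.p with hQ
    set m2 : ℝ := ((M : ℝ) ^ d) ^ 2 with hm2
    have hP0 : 0 ≤ P := by positivity
    have hQ0 : 0 ≤ Q := by positivity
    have hM1 := one_le_Md (d := d) (M := M)
    have hM2 : (M : ℝ) ^ d ≤ m2 := by
      rw [hm2]
      nlinarith
    have hm20 : 0 ≤ m2 := by positivity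
    have he0 : 0 < D.e₀ := by linarith [hA.he.1, hA.he.2.1]
    have hQe : (M : ℝ) ^ d * (1 / D.e₀) ^ D.p ≤ m2 * Q := by
      refine mul_le_mul hM2 ?_ (by positivity) hm20
      exact pow_le_pow_left₀ (by positivity) (one_div_le_one_div_of_le he1 hA.he.2.1) _
    have hQe0 : 0 ≤ (M : ℝ) ^ d * (1 / D.e₀) ^ D.p := by positivity
    have hr : 0 ≤ D.aN / k := div_nonneg haN hkp0.le
    have hpk : 0 ≤ (D.p : ℝ) / k := div_nonneg hp0 hkp0.le
    have hup : ∀ c x y : ℝ, c ≤ K → 0 ≤ x → x ≤ y → 0 ≤ c →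
        c * D.aN / k * x ≤ K * (D.aN / k) * y := by
      intro c x y hcK hx hxy hc0
      have e1 : c * D.aN / k * x = c * (D.aN / k) * x := by ring
      rw [e1]
      exact mul_le_mul (mul_le_mul_of_nonneg_right hcK hr) hxy hx (by positivity)
    have hPm := mul_le_mul_of_nonneg_left hP4 hm20
    have b1 := a1.trans (hup CA _ (D.U1 q + m2 * P) hKA (by positivity) (by linarith) (by linarith))
    have b2 := a2.trans (hup CA _ (D.U2 q + m2 * P) hKA (by positivity) (by linarith) (by linarith))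
    have b3 := a3.trans (hup CB _ (D.U3 q + m2 * P) hKB (by positivity) (by linarith) (by linarith))
    have b4 := a4.trans (hup CC _ (D.U4 q + m2 * P) hKC (by positivity) (by linarith) (by linarith))
    have b6 := a6.trans (hup CE _ (D.U6 q) hKE n6 le_rfl (by linarith))
    have b5 : LL D.U5 q ≤ K * (D.aN / k) * (D.U5 q + m2 * Q) + K * ((D.p : ℝ) / k) * (m2 * Q) := by
      refine a5.trans (add_le_add (hup CD _ _ hKD (by positivity) (by linarith) (by linarith)) ?_)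
      have e1 : CD * D.p / k * ((M : ℝ) ^ d * (1 / D.e₀) ^ D.p) =
          CD * ((D.p : ℝ) / k) * ((M : ℝ) ^ d * (1 / D.e₀) ^ D.p) := by ring
      rw [e1]
      exact mul_le_mul (mul_le_mul_of_nonneg_right hKD hpk) hQe hQe0 (by positivity)
    have e1 : α * (1 / k) * D.U q + β * (1 / k) =
        K * (D.aN / k) * D.U q + K * (D.aN / k + (D.p : ℝ) / k) * (4 * (m2 * P) + 4 * (m2 * Q)) := by
      rw [hα, hβ]
      unfold Dat.bN
      rw [← hP, ← hQ, ← hm2]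
      ring
    rw [e1]
    have e2 : D.U q = D.U1 q + D.U2 q + D.U3 q + D.U4 q + D.U5 q + D.U6 q := rfl
    have hKr : 0 ≤ K * (D.aN / k) := by positivity
    have hKp : 0 ≤ K * ((D.p : ℝ) / k) := by positivity
    have hmP : 0 ≤ m2 * P := by positivity
    have hmQ : 0 ≤ m2 * Q := by positivity
    calc LL D.U1 q + LL D.U2 q + LL D.U3 q + LL D.U4 q + LL D.U5 q + LL D.U6 q
        ≤ K * (D.aN / k) * (D.U1 q + m2 * P) + K * (D.aN / k) * (D.U2 q + m2 * P) +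
          K * (D.aN / k) * (D.U3 q + m2 * P) + K * (D.aN / k) * (D.U4 q + m2 * P) +
          (K * (D.aN / k) * (D.U5 q + m2 * Q) + K * ((D.p : ℝ) / k) * (m2 * Q)) +
          K * (D.aN / k) * D.U6 q := by
          linarith
      _ = K * (D.aN / k) * D.U q + (K * (D.aN / k) * (4 * (m2 * P) + m2 * Q) +
            K * ((D.p : ℝ) / k) * (m2 * Q)) := by
          rw [e2]
          ring
      _ ≤ K * (D.aN / k) * D.U q + (K * (D.aN / k) * (4 * (m2 * P) + 4 * (m2 * Q)) +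
            K * ((D.p : ℝ) / k) * (4 * (m2 * P) + 4 * (m2 * Q))) := by
          have f1 : K * (D.aN / k) * (4 * (m2 * P) + m2 * Q) ≤
              K * (D.aN / k) * (4 * (m2 * P) + 4 * (m2 * Q)) :=
            mul_le_mul_of_nonneg_left (by linarith) hKr
          have f2 : K * ((D.p : ℝ) / k) * (m2 * Q) ≤
              K * ((D.p : ℝ) / k) * (4 * (m2 * P) + 4 * (m2 * Q)) :=
            mul_le_mul_of_nonneg_left (by linarith) hKp
          linarith
      _ = _ := by ring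

end Pool.Agent.LE.QZ.H3
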